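import Mathlib
import Pool.Agent.R504.Heine

set_option autoImplicit false

/-!
# Denominators in the ratio `2φ1(aq, bq; cq; q, z) / 2φ1(a, b; c; q, z)`

We work in the field of fractions of `ℤ[a, b, c, q]`, that is, in `ℚ(a, b, c, q)`. The ratio,
divided by `1 - c`, satisfies a `q`-difference equation of Riccati type, whose `n`-th coefficient
gives `(1 - c q ^ n) γ_n / (1 - c)` as a polynomial expression, of degree at most `2`, in the earlier
coefficients. This gives the denominators by induction.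
-/

namespace Pool.Agent.Results.MP_2e34cc_co.Denominators

open Finset

/-- `ℚ(a, b, c, q)`, the field of fractions of `ℤ[a, b, c, q]` -/
abbrev K : Type := FractionRing (MvPolynomial (Fin 4) ℤ)

/-- the inclusion of `ℤ[a, b, c, q]` -/
noncomputable abbrev ι : MvPolynomial (Fin 4) ℤ →+* K := algebraMap (MvPolynomial (Fin 4) ℤ) K

/-- the indeterminate `a` -/
noncomputable def a : K := ι (MvPolynomial.X 0)
/-- the indeterminate `b` -/
noncomputable def b : K := ι (MvPolynomial.X 1)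
/-- the indeterminate `c` -/
noncomputable def c : K := ι (MvPolynomial.X 2)
/-- the indeterminate `q` -/
noncomputable def q : K := ι (MvPolynomial.X 3)

/-- the q-Pochhammer symbol `(x; q)_n = ∏_{j < n} (1 - x q ^ j)` -/
noncomputable def poch (x : K) (n : ℕ) : K := ∏ j ∈ range n, (1 - x * q ^ j)

/-- the basic hypergeometric series
`2φ1(x, y; w; q, z) = ∑_n (x; q)_n (y; q)_n / ((q; q)_n (w; q)_n) z ^ n`,
a formal power series in `z` over `K` -/
noncomputable def phi (x y w : K) : PowerSeries K :=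
  PowerSeries.mk fun n => poch x n * poch y n / (poch q n * poch w n)

/-- `γ_n`, the coefficients of `2φ1(aq, bq; cq; q, z) / 2φ1(a, b; c; q, z)` -/
noncomputable def γ (n : ℕ) : K :=
  PowerSeries.coeff n (phi (a * q) (b * q) (c * q) * (phi a b c)⁻¹)

/-- **The result.** For every `n` there is a polynomial `P_n ∈ ℤ[a, b, c, q]` with
`γ_n / (1 - c) = P_n / ∏_{k = 0}^n (1 - c q ^ k) ^ ⌊(n + 1) / (k + 1)⌋`. -/
theorem result : ∀ n : ℕ, ∃ P : MvPolynomial (Fin 4) ℤ,
    γ n / (1 - c) = ι P / ∏ k ∈ range (n + 1), (1 - c * q ^ k) ^ ((n + 1) / (k + 1)) := by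
  intro n
  have hgen : Pool.Agent.R504.Heine.Generic a b c q := Pool.Agent.R504.Heine.generic
  have hphi : ∀ x y w : K, phi x y w = Pool.Agent.R504.Heine.phi x y w q := fun _ _ _ => rfl
  obtain ⟨G, hGdef⟩ : ∃ G : PowerSeries K,
    G = PowerSeries.C (1 - c)⁻¹ * (phi (a * q) (b * q) (c * q) * (phi a b c)⁻¹) := ⟨_, rfl⟩
  have hcoef : ∀ m, PowerSeries.coeff m G = γ m / (1 - c) := by
    intro m
    rw [hGdef, PowerSeries.coeff_C_mul, γ, div_eq_mul_inv, mul_comm]
  have hG : G * Pool.Agent.R504.Heine.phi a b c q =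
      PowerSeries.C (1 - c)⁻¹ * Pool.Agent.R504.Heine.phi (a * q) (b * q) (c * q) q := by
    rw [hGdef, ← hphi, ← hphi, mul_assoc, mul_assoc, PowerSeries.inv_mul_cancel, mul_one]
    rw [hphi, Pool.Agent.R504.Heine.phi_const]
    exact one_ne_zero
  have h1 := Pool.Agent.R504.Heine.riccati_abc hgen G hG
  obtain ⟨h2, h3⟩ := Pool.Agent.R504.Heine.coeff_riccati G c q _ _ _ _ h1
  have ha : a ∈ ι.range := ⟨_, rfl⟩
  have hb : b ∈ ι.range := ⟨_, rfl⟩
  have hc : c ∈ ι.range := ⟨_, rfl⟩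
  have hq : q ∈ ι.range := ⟨_, rfl⟩
  have h1' : (1 : K) ∈ ι.range := Subring.one_mem _
  have hab : (1 - a) * (1 - b) ∈ ι.range :=
    Subring.mul_mem _ (Subring.sub_mem _ h1' ha) (Subring.sub_mem _ h1' hb)
  have h4 := Pool.Agent.R504.Heine.denom ι.range (fun k => 1 - c * q ^ k)
    (fun k => Subring.sub_mem _ h1' (Subring.mul_mem _ hc (Subring.pow_mem _ hq _)))
    (fun m => PowerSeries.coeff m G) q hq
    (fun m => (a + b - a * b) - a * b * q * q ^ m)
    (fun m => Subring.sub_mem _ (Subring.sub_mem _ (Subring.add_mem _ ha hb)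
      (Subring.mul_mem _ ha hb)) (Subring.mul_mem _ (Subring.mul_mem _ (Subring.mul_mem _ ha hb) hq)
        (Subring.pow_mem _ hq _)))
    (-(c * ((1 - a) * (1 - b)))) (a * b * ((1 - a) * (1 - b)) * q)
    (Subring.neg_mem _ (Subring.mul_mem _ hc hab))
    (Subring.mul_mem _ (Subring.mul_mem _ (Subring.mul_mem _ ha hb) hab) hq) h2 h3 n
  obtain ⟨P, hP⟩ := h4
  refine ⟨P, ?_⟩
  rw [hP, ← hcoef, eq_div_iff]
  exact Finset.prod_ne_zero_iff.2 fun k _ => pow_ne_zero _ (hgen.hc k)

end Pool.Agent.Results.MP_2e34cc_co.Denominators
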